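import Pool.Agent.Helper59.MB.Goals3

/-!
# Project MB (MP_49a1ce_an): CPX (packet 13279)

The sequence `vv` has few words.
-/

set_option autoImplicit false

open MeasureTheory Filter Topology Finset

namespace Pool.Agent.Helper39.MB

open Pool.Agent.Helper59.MB

/-- words of a concatenation of block words -/
lemma words_ncard_le (v : ℕ → ℤ) (L T0 : ℕ) (hL : 0 < L) (hT : L ∣ T0)
    (W : Set (Fin L → ℤ)) (hWf : W.Finite)
    (hW : ∀ q, T0 ≤ L * q → (fun i : Fin L => v (L * q + i)) ∈ W) (n : ℕ) :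
    (words v n).ncard ≤ T0 + L * W.ncard ^ (n / L + 2) := by
  classical
  have : Finite W := hWf
  let Ψ : Fin L × (Fin (n / L + 2) → W) → (Fin n → ℤ) := fun x i =>
    (x.2 ⟨((x.1 : ℕ) + i) / L % (n / L + 2), Nat.mod_lt _ (Nat.succ_pos _)⟩ : Fin L → ℤ)
      ⟨((x.1 : ℕ) + i) % L, Nat.mod_lt _ hL⟩
  have hsub : words v n ⊆
      (fun (a : ℕ) (i : Fin n) => v (a + i)) '' (Set.Iio T0) ∪ Set.range Ψ := by
    rintro w ⟨a, rfl⟩
    rcases lt_or_ge a T0 with ha | ha
    · exact Or.inl ⟨a, ha, rfl⟩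
    · right
      obtain ⟨c, hc⟩ := hT
      have hq : T0 ≤ L * (a / L) := by
        rw [hc]
        refine Nat.mul_le_mul_left L ?_
        rw [Nat.le_div_iff_mul_le hL, mul_comm, ← hc]
        exact ha
      refine ⟨⟨⟨a % L, Nat.mod_lt _ hL⟩, fun t => ⟨fun i : Fin L => v (L * (a / L + t) + i),
        hW _ (hq.trans (Nat.mul_le_mul_left L (Nat.le_add_right _ _)))⟩⟩, ?_⟩
      funext i
      have hlt : (a % L + i) / L < n / L + 2 := by
        have h1 : a % L < L := Nat.mod_lt _ hL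
        have h2 : (i : ℕ) < n := i.2
        have h3 : a % L + i < L * (n / L + 2) := by
          have h4 := Nat.div_add_mod n L
          have h5 := Nat.mod_lt n hL
          have h6 : L * (n / L + 2) = L * (n / L) + 2 * L := by ring
          omega
        exact Nat.div_lt_of_lt_mul h3
      change v (L * (a / L + (a % L + i) / L % (n / L + 2)) + (a % L + i) % L) = v (a + i)
      rw [Nat.mod_eq_of_lt hlt]
      congr 1
      have h1 := Nat.div_add_mod a L
      have h2 := Nat.div_add_mod (a % L + i) L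
      have h3 : L * (a / L + (a % L + i) / L) = L * (a / L) + L * ((a % L + i) / L) := by ring
      omega
  have hfin1 : (Set.Iio T0).Finite := Set.finite_Iio T0
  have hfin : ((fun (a : ℕ) (i : Fin n) => v (a + i)) '' (Set.Iio T0) ∪ Set.range Ψ).Finite :=
    (hfin1.image _).union (Set.finite_range Ψ)
  refine (Set.ncard_le_ncard hsub hfin).trans ((Set.ncard_union_le _ _).trans ?_)
  refine add_le_add ?_ ?_
  · refine (Set.ncard_image_le hfin1).trans ?_
    rw [← Finset.coe_Iio, Set.ncard_coe_finset, Nat.card_Iio]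
  · rw [← Set.image_univ]
    refine (Set.ncard_image_le Set.finite_univ).trans ?_
    rw [Set.ncard_univ, Nat.card_prod, Nat.card_fun, Nat.card_fin, Nat.card_fin,
      Nat.card_coe_set_eq]

/-- the condition in the definition of `vv` -/
def vcond (u : ℕ → ℤ) (L T : ℕ → ℕ) (U : ∀ k, Set (Fin (L k) → ℤ)) (n : ℕ) : Prop :=
  ∀ k, T k ≤ n → wd u (L k) (n / L k) ∈ U k

lemma vv_pos {u : ℕ → ℤ} {L T : ℕ → ℕ} {U : ∀ k, Set (Fin (L k) → ℤ)} {n : ℕ}
    (h : vcond u L T U n) : vv u L T U n = u n := if_pos h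

lemma vv_neg {u : ℕ → ℤ} {L T : ℕ → ℕ} {U : ∀ k, Set (Fin (L k) → ℤ)} {n : ℕ}
    (h : ¬ vcond u L T U n) : vv u L T U n = 0 := if_neg h

lemma dvd_of_le {L T : ℕ → ℕ} {u : ℕ → ℤ} {U : ∀ k, Set (Fin (L k) → ℤ)} (h : Dat u L T U)
    {k j : ℕ} (hkj : k ≤ j) : L k ∣ L j := by
  induction j, hkj using Nat.le_induction with
  | base => exact dvd_rfl
  | succ j hj ih => exact ih.trans (h.dvd j)

/-- the condition at the place `i` of a block of level `k` depends only on the block word -/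
lemma vcond_congr {u : ℕ → ℤ} {L T : ℕ → ℕ} {U : ∀ k, Set (Fin (L k) → ℤ)} (h : Dat u L T U)
    (k q q' : ℕ) (hq : T k ≤ L k * q) (hw : wd u (L k) q = wd u (L k) q')
    (hg' : ∃ i' < L k, vcond u L T U (L k * q' + i')) (i : ℕ) (hi : i < L k)
    (hc : vcond u L T U (L k * q + i)) : vcond u L T U (L k * q' + i) := by
  obtain ⟨i', hi', hc'⟩ := hg'
  intro j hj
  have hLk := h.pos k
  rcases le_or_gt j k with hjk | hjk
  · have h1 : T j ≤ L k * q + i := (h.Tmono hjk).trans (hq.trans (Nat.le_add_right _ _))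
    have h2 := hc j h1
    have hLj := h.pos j
    obtain ⟨c, hc1⟩ := dvd_of_le h hjk
    have key : ∀ q₀ : ℕ, (L k * q₀ + i) / L j = c * q₀ + i / L j := by
      intro q₀
      rw [hc1, mul_assoc, Nat.mul_add_div hLj]
    have hwj : wd u (L j) ((L k * q' + i) / L j) = wd u (L j) ((L k * q + i) / L j) := by
      funext a
      unfold wd
      rw [key, key]
      have hai : L j * (i / L j) + a < L k := by
        have h3 : i / L j < c := by
          rw [Nat.div_lt_iff_lt_mul hLj, mul_comm, ← hc1]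
          exact hi
        have h4 : L j * (i / L j + 1) ≤ L j * c := Nat.mul_le_mul_left _ h3
        rw [hc1]
        have h5 : L j * (i / L j + 1) = L j * (i / L j) + L j := by ring
        have := a.2
        omega
      have e : ∀ q₀ : ℕ, L j * (c * q₀ + i / L j) + a = L k * q₀ + (L j * (i / L j) + a) := by
        intro q₀
        rw [hc1]
        ring
      rw [e, e]
      exact (congrFun hw ⟨L j * (i / L j) + a, hai⟩).symm
    rw [hwj]
    exact h2
  · obtain ⟨c, hc1⟩ := dvd_of_le h hjk.le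
    obtain ⟨b, hb⟩ := (dvd_of_le h hjk.le).trans (h.Tdvd j)
    have hbq : b ≤ q' := by
      rw [hb] at hj
      by_contra hlt
      have h3 : L k * (q' + 1) ≤ L k * b := Nat.mul_le_mul_left _ (not_le.1 hlt)
      have h4 : L k * (q' + 1) = L k * q' + L k := by ring
      omega
    have h1 : T j ≤ L k * q' + i' := by
      rw [hb]
      exact (Nat.mul_le_mul_left _ hbq).trans (Nat.le_add_right _ _)
    have key : ∀ i₀ < L k, (L k * q' + i₀) / L j = q' / c := by
      intro i₀ hi₀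
      rw [hc1, ← Nat.div_div_eq_div_mul, Nat.mul_add_div hLk, Nat.div_eq_of_lt hi₀, add_zero]
    rw [key i hi, ← key i' hi']
    exact hc' j h1

/-- **CPX** -/
theorem t_CPX : S_CPX := by
  intro u L T U hu hD ε hε
  classical
  -- the choice of the level
  obtain ⟨k, hk⟩ : ∃ k : ℕ, (1 / 2 : ℝ) ^ k + 1 / (L k : ℝ) ≤ ε := by
    have h1 : Tendsto (fun k : ℕ => (1 / 2 : ℝ) ^ k) atTop (𝓝 0) :=
      tendsto_pow_atTop_nhds_zero_of_lt_one (by norm_num) (by norm_num)
    have h2 : Tendsto (fun k : ℕ => 1 / (L k : ℝ)) atTop (𝓝 0) := by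
      have : Tendsto (fun k : ℕ => (L k : ℝ)) atTop atTop :=
        tendsto_atTop_mono (fun k => by exact_mod_cast hD.large k) tendsto_natCast_atTop_atTop
      exact tendsto_const_nhds.div_atTop this
    have h3 := h1.add h2
    rw [add_zero] at h3
    exact ((h3.eventually (gt_mem_nhds hε)).mono fun k hk => hk.le).exists
  set v := vv u L T U with hv
  have hLk : 0 < L k := hD.pos k
  -- the block words
  let bw : ℕ → Fin (L k) → ℤ := fun q i => v (L k * q + i)
  let W : Set (Fin (L k) → ℤ) := {w | ∃ q, T k ≤ L k * q ∧ w = bw q}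
  let F : (Fin (L k) → ℤ) → (Fin (L k) → ℤ) := fun β =>
    if h : ∃ q, T k ≤ L k * q ∧ wd u (L k) q = β ∧ bw q ≠ 0 then bw h.choose else 0
  have hgood : ∀ q, bw q ≠ 0 → ∃ i < L k, vcond u L T U (L k * q + i) := by
    intro q hne
    obtain ⟨i, hi⟩ := Function.ne_iff.1 hne
    refine ⟨i, i.2, ?_⟩
    by_contra hc
    exact hi (vv_neg hc)
  have heq : ∀ q q', T k ≤ L k * q → T k ≤ L k * q' → wd u (L k) q = wd u (L k) q' →
      bw q ≠ 0 → bw q' ≠ 0 → bw q = bw q' := by
    intro q q' hq hq' hw h1 h2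
    funext i
    change v (L k * q + i) = v (L k * q' + i)
    have hui : u (L k * q + i) = u (L k * q' + i) := congrFun hw i
    by_cases hc : vcond u L T U (L k * q + i)
    · have hc' := vcond_congr hD k q q' hq hw (hgood q' h2) i i.2 hc
      rw [hv, vv_pos hc, vv_pos hc', hui]
    · have hc' : ¬ vcond u L T U (L k * q' + i) := fun h =>
        hc (vcond_congr hD k q' q hq' hw.symm (hgood q h1) i i.2 h)
      rw [hv, vv_neg hc, vv_neg hc']
  have hWsub : W ⊆ insert 0 (F '' U k) := by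
    rintro w ⟨q, hq, rfl⟩
    by_cases h0 : bw q = 0
    · exact Or.inl h0
    · right
      refine ⟨wd u (L k) q, ?_, ?_⟩
      · obtain ⟨i, hi, hc⟩ := hgood q h0
        have := hc k (hq.trans (Nat.le_add_right _ _))
        rwa [Nat.mul_add_div hLk, Nat.div_eq_of_lt hi, add_zero] at this
      · have hex : ∃ q', T k ≤ L k * q' ∧ wd u (L k) q' = wd u (L k) q ∧ bw q' ≠ 0 :=
          ⟨q, hq, rfl, h0⟩
        have hF : F (wd u (L k) q) = bw hex.choose := dif_pos hex
        rw [hF]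
        obtain ⟨h1, h2, h3⟩ := hex.choose_spec
        exact heq _ _ h1 hq h2 h3 h0
  have hUf := hD.fin k
  have hfin : (insert 0 (F '' U k)).Finite := (hUf.image F).insert 0
  have hWf : W.Finite := hfin.subset hWsub
  have hWc : W.ncard ≤ (U k).ncard + 1 :=
    (Set.ncard_le_ncard hWsub hfin).trans ((Set.ncard_insert_le _ _).trans
      (Nat.add_le_add_right (Set.ncard_image_le hUf) 1))
  -- the estimate
  set η : ℝ := (1 / 2 : ℝ) ^ k with hη
  have hη0 : 0 ≤ η := by positivity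
  have hLr : (0 : ℝ) < L k := by exact_mod_cast hLk
  refine ⟨T k + L k * 2 ^ (2 * (η * L k + 1)), fun n => ?_⟩
  have h1 := words_ncard_le v (L k) (T k) hLk (hD.Tdvd k) W hWf (fun q hq => ⟨q, hq, rfl⟩) n
  have h2 : ((words v n).ncard : ℝ) ≤ T k + L k * (W.ncard : ℝ) ^ (n / L k + 2) := by
    exact_mod_cast h1
  have h3 : (W.ncard : ℝ) ≤ 2 ^ (η * L k + 1) := by
    have e1 : (W.ncard : ℝ) ≤ (U k).ncard + 1 := by exact_mod_cast hWc
    have e2 := hD.card k
    rw [← hη] at e2
    have e3 : (1 : ℝ) ≤ 2 ^ (η * L k) := Real.one_le_rpow (by norm_num) (by positivity)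
    have e4 : (2 : ℝ) ^ (η * L k + 1) = 2 ^ (η * L k) * 2 := by
      rw [Real.rpow_add (by norm_num), Real.rpow_one]
    rw [e4]
    linarith
  have h4 : (W.ncard : ℝ) ^ (n / L k + 2) ≤ 2 ^ (2 * (η * L k + 1)) * 2 ^ (ε * n) := by
    refine (pow_le_pow_left₀ (Nat.cast_nonneg _) h3 _).trans ?_
    rw [← Real.rpow_natCast, ← Real.rpow_mul (by norm_num), ← Real.rpow_add (by norm_num)]
    refine Real.rpow_le_rpow_of_exponent_le (by norm_num) ?_
    have e1 : ((n / L k : ℕ) : ℝ) ≤ (n : ℝ) / L k := Nat.cast_div_le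
    have e2 : (η * L k + 1) * ((n : ℝ) / L k) = (η + 1 / L k) * n := by
      field_simp
    have e3 : (η + 1 / (L k : ℝ)) * n ≤ ε * n :=
      mul_le_mul_of_nonneg_right hk (Nat.cast_nonneg _)
    have e4 : (η * L k + 1) * ((n / L k : ℕ) : ℝ) ≤ (η * L k + 1) * ((n : ℝ) / L k) :=
      mul_le_mul_of_nonneg_left e1 (by positivity)
    push_cast
    linarith
  have h5 : (1 : ℝ) ≤ 2 ^ (ε * n) := Real.one_le_rpow (by norm_num) (by positivity)
  have h6 : (L k : ℝ) * (W.ncard : ℝ) ^ (n / L k + 2) ≤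
      L k * (2 ^ (2 * (η * L k + 1)) * 2 ^ (ε * n)) := mul_le_mul_of_nonneg_left h4 hLr.le
  have h7 : (T k : ℝ) ≤ T k * 2 ^ (ε * n) := le_mul_of_one_le_right (Nat.cast_nonneg _) h5
  calc ((words v n).ncard : ℝ) ≤ T k + L k * (W.ncard : ℝ) ^ (n / L k + 2) := h2
    _ ≤ T k * 2 ^ (ε * n) + L k * (2 ^ (2 * (η * L k + 1)) * 2 ^ (ε * n)) := add_le_add h7 h6
    _ = (T k + L k * 2 ^ (2 * (η * L k + 1))) * 2 ^ (ε * n) := by ring

end Pool.Agent.Helper39.MB
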