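import Pool.Agent.Helper59.MB.Goals1

/-!
# Project MB (MP_49a1ce_an): LCS (packet 13102)

The constructions of level `k` depend on the first values of `s` only.
-/

set_option autoImplicit false

open MeasureTheory Filter Topology Finset

namespace Pool.Agent.Helper39.MB

open Pool.Agent.Helper59.MB

lemma ev_congr {s s' : ℕ → ℕ} {k : ℕ} (h : ∀ i ≤ k, s i = s' i) {l : ℕ} (hl : l ≤ k) (w : Wd)
    (i : ℕ) : ev s l w i = ev s' l w i := by
  have hP : P s l = P s' l := by unfold P; rw [h l hl]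
  by_cases hL : (spec l).1 ≤ l
  · have hPL : P s (spec l).1 = P s' (spec l).1 := by unfold P; rw [h _ (hL.trans hl)]
    unfold ev hit
    rw [hP, hPL]
  · unfold ev
    rw [if_neg (fun hc => hL hc.1), if_neg (fun hc => hL hc.1)]

lemma goodW_congr {s s' : ℕ → ℕ} {k : ℕ} (h : ∀ i ≤ k + 1, s i = s' i) (V : ℕ → Set (ℕ → ℝ))
    (η : ℝ) {e e' : ℕ → ℕ → ℝ} (he : ∀ l ≤ k, ∀ ρ, e l ρ = e' l ρ) (w : Wd) :
    GoodW s V k η e w ↔ GoodW s' V k η e' w := by
  have hk : P s k = P s' k := by unfold P; rw [h k (Nat.le_succ k)]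
  have hk1 : P s (k + 1) = P s' (k + 1) := by unfold P; rw [h (k + 1) le_rfl]
  unfold GoodW
  rw [hk, hk1]
  refine forall_congr' fun l => forall_congr' fun hl => forall_congr' fun i₁ =>
    forall_congr' fun i₂ => forall_congr' fun _ => forall_congr' fun _ => forall_congr' fun v =>
    forall_congr' fun _ => ?_
  have hs : ∑ i ∈ Finset.Ico i₁ i₂, (ev s l w i - e l (i % P s' k)) * v i =
      ∑ i ∈ Finset.Ico i₁ i₂, (ev s' l w i - e' l (i % P s' k)) * v i :=
    Finset.sum_congr rfl fun i _ => by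
      rw [ev_congr (fun i hi => h i (hi.trans (Nat.le_succ k))) hl w i, he l hl]
  rw [hs]

lemma cat_congr {s s' : ℕ → ℕ} {k : ℕ} (h : s k = s' k) (Φ : Wd → Wd) :
    cat s k Φ = cat s' k Φ := by
  have hk : P s k = P s' k := by unfold P; rw [h]
  unfold cat
  rw [hk]

lemma mean_congr {s s' : ℕ → ℕ} {k : ℕ} (h : ∀ i ≤ k, s i = s' i) (m : Measure A)
    [IsProbabilityMeasure m] (Φ : Wd → Wd) (l : ℕ) (hl : l ≤ k) (ρ : ℕ) :
    mean s m Φ l ρ = mean s' m Φ l ρ := by
  unfold mean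
  have : (fun w : Wd => ev s l (Φ w) ρ) = fun w : Wd => ev s' l (Φ w) ρ :=
    funext fun w => ev_congr h hl _ _
  rw [this]

lemma gw_congr {s s' : ℕ → ℕ} {k : ℕ} (h : ∀ i ≤ k + 1, s i = s' i) (V : ℕ → Set (ℕ → ℝ))
    (m : Measure A) [IsProbabilityMeasure m] (Φ : Wd → Wd) : gw s V m k Φ = gw s' V m k Φ := by
  have hc := cat_congr (h k (Nat.le_succ k)) Φ
  unfold gw
  have : (fun w : Wd => GoodW s V k (1 / (2 * (k + 1))) (mean s m Φ) (cat s k Φ w)) =
      fun w : Wd => GoodW s' V k (1 / (2 * (k + 1))) (mean s' m Φ) (cat s' k Φ w) :=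
    funext fun w => propext (by
      rw [hc]
      exact goodW_congr h V _ (mean_congr (fun i hi => h i (hi.trans (Nat.le_succ k))) m Φ) _)
  rw [this, hc]

lemma nxt_congr {s s' : ℕ → ℕ} {k : ℕ} (h : ∀ i ≤ k + 1, s i = s' i) (V : ℕ → Set (ℕ → ℝ))
    (m : Measure A) [IsProbabilityMeasure m] (Φ : Wd → Wd) : nxt s V m k Φ = nxt s' V m k Φ := by
  have hc := cat_congr (h k (Nat.le_succ k)) Φ
  have hg := gw_congr h V m Φ
  funext w
  have hG : GoodW s V k (1 / (k + 1)) (mean s m Φ) (cat s k Φ w) ↔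
      GoodW s' V k (1 / (k + 1)) (mean s' m Φ) (cat s' k Φ w) := by
    rw [hc]
    exact goodW_congr h V _ (mean_congr (fun i hi => h i (hi.trans (Nat.le_succ k))) m Φ) _
  unfold nxt
  by_cases hw : GoodW s V k (1 / (k + 1)) (mean s m Φ) (cat s k Φ w)
  · rw [if_pos hw, if_pos (hG.1 hw), hc]
  · rw [if_neg hw, if_neg (fun hc' => hw (hG.2 hc')), hc, hg]

lemma Phi_congr {s s' : ℕ → ℕ} (V : ℕ → Set (ℕ → ℝ)) (m : Measure A) [IsProbabilityMeasure m] :
    ∀ k : ℕ, (∀ i ≤ k, s i = s' i) → Phi s V m k = Phi s' V m k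
  | 0, _ => rfl
  | k + 1, h => by
    have ih := Phi_congr V m k fun i hi => h i (hi.trans (Nat.le_succ k))
    change nxt s V m k (Phi s V m k) = nxt s' V m k (Phi s' V m k)
    rw [ih]
    exact nxt_congr h V m _

theorem t_LCS : S_LCS := by
  intro s s' V m _ k h
  have hPhi := Phi_congr V m k h
  have hE : ∀ l ≤ k, ∀ ρ : ℕ, E s V m k l ρ = E s' V m k l ρ := fun l hl ρ => by
    unfold E
    rw [hPhi]
    exact mean_congr h m _ l hl ρ
  refine ⟨fun l hl w i => ev_congr h hl w i, hPhi, hE, fun hk1 => ?_⟩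
  have h' : ∀ i ≤ k + 1, s i = s' i := fun i hi => by
    rcases Nat.lt_or_ge k i with hik | hik
    · have : i = k + 1 := le_antisymm hi hik
      rw [this]; exact hk1
    · exact h i hik
  have hHG : ∀ w : Wd, HGood s V m k w ↔ HGood s' V m k w := fun w =>
    goodW_congr h' V _ hE w
  refine ⟨fun w => goodW_congr h' V _ hE w, hHG, ?_⟩
  have hP : P s k = P s' k := by unfold P; rw [h k le_rfl]
  have hP1 : P s (k + 1) = P s' (k + 1) := by unfold P; rw [hk1]
  have hset : {w | ¬ HGood s V m k (cat s k (Phi s V m k) w)} =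
      {w | ¬ HGood s' V m k (cat s' k (Phi s' V m k) w)} := by
    rw [hPhi, cat_congr (h k le_rfl)]
    ext w
    exact not_congr (hHG _)
  unfold Adm
  rw [hset, hP, hP1]

end Pool.Agent.Helper39.MB
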