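import Pool.Agent.Helper59.MB.Goals4
import Pool.Agent.Helper12.MB.BLK
import Pool.Agent.Helper89.MB.HOE

/-!
# Project MB (MP_49a1ce_an): LDV (packet 13382)

Large deviations for weighted sums of functions of finitely many coordinates of a Bernoulli process.
-/

set_option autoImplicit false

open MeasureTheory Filter Topology Finset

namespace Pool.Agent.Helper39.MB

open Pool.Agent.Helper59.MB

lemma shiftZ_iter_apply (n : ℕ) (w : ℤ → A) (i : ℤ) : ((shiftZ A)^[n] w) i = w (i + n) := by
  induction n generalizing w i with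
  | zero => simp
  | succ n ih =>
    rw [Function.iterate_succ_apply, ih]
    change w (i + n + 1) = w (i + ((n + 1 : ℕ) : ℤ))
    congr 1
    push_cast
    ring

/-- a sum over `range (J * q)` by classes -/
lemma sum_range_classes (f : ℕ → ℝ) (q J : ℕ) :
    ∑ n ∈ range (J * q), f n = ∑ r ∈ range q, ∑ j ∈ range J, f (r + j * q) := by
  rw [Finset.sum_comm]
  induction J with
  | zero => simp
  | succ J ih =>
    rw [Nat.succ_mul, Finset.sum_range_add, ih, Finset.sum_range_succ]
    congr 1
    exact Finset.sum_congr rfl fun r _ => by rw [add_comm]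

instance isProb_Be {Z : Type} [MeasurableSpace Z] (κ : Measure Z) [IsProbabilityMeasure κ] :
    IsProbabilityMeasure (Be κ) := by
  unfold Be
  infer_instance

/-- the sums over a class -/
lemma class_bound (m : Measure A) [IsProbabilityMeasure m] (M : ℕ) (h : (ℤ → A) → ℝ) (b t : ℝ)
    (hmeas : Measurable h) (hb : 0 < b) (ht : 0 ≤ t) (hle : ∀ w, |h w| ≤ b)
    (hloc : ∀ w w' : ℤ → A, (∀ i : ℤ, |i| ≤ M → w i = w' i) → h w = h w')
    (hint : ∫ w, h w ∂(Be m) = 0) (J r : ℕ) (hJ : 0 < J) (v : ℕ → ℝ) (hv : ∀ n, |v n| ≤ 1) :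
    (Be m).real {w | t ≤ |∑ j ∈ range J, h ((shiftZ A)^[r + j * (2 * M + 1)] w) *
      v (r + j * (2 * M + 1))|} ≤ 2 * Real.exp (-(t ^ 2) / (2 * J * b ^ 2)) := by
  set q : ℕ := 2 * M + 1 with hq
  -- the coordinates of the class
  let ρ : (ℤ → A) → Wd := fun w i => w ((i : ℤ) + r - M)
  have hρinj : Function.Injective fun i : ℕ => (i : ℤ) + r - M := by
    intro i j hij
    have : (i : ℤ) + r - M = (j : ℤ) + r - M := hij
    omega
  have hρmeas : Measurable ρ := by
    rw [measurable_pi_iff]
    intro i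
    exact measurable_pi_apply _
  have hρ : (Be m).map ρ = Q m := Pool.Agent.Helper12.MB.t_BLK A m ℕ ℤ _ hρinj
  -- two-sided sequences from words
  let ex : ℕ → Wd → (ℤ → A) := fun j W i => W ((q * j : ℕ) + M + i : ℤ).toNat
  have hexmeas : ∀ j, Measurable (ex j) := by
    intro j
    rw [measurable_pi_iff]
    intro i
    exact measurable_pi_apply _
  let F : ℕ → Wd → ℝ := fun j W => h (ex j W) * v (r + j * q)
  have hFmeas : ∀ j, Measurable (F j) := fun j => (hmeas.comp (hexmeas j)).mul_const _
  have hFle : ∀ j W, |F j W| ≤ b := by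
    intro j W
    change |h (ex j W) * v (r + j * q)| ≤ b
    rw [abs_mul]
    have h1 := hle (ex j W)
    have h2 := hv (r + j * q)
    calc |h (ex j W)| * |v (r + j * q)| ≤ b * 1 :=
          mul_le_mul h1 h2 (abs_nonneg _) hb.le
      _ = b := mul_one b
  have hFloc : ∀ j, ∀ w w' : Wd, (∀ i < q, w (q * j + i) = w' (q * j + i)) →
      F j w = F j w' := by
    intro j w w' hw
    change h (ex j w) * v (r + j * q) = h (ex j w') * v (r + j * q)
    rw [hloc (ex j w) (ex j w') fun i hi => ?_]
    change w ((q * j : ℕ) + M + i : ℤ).toNat = w' ((q * j : ℕ) + M + i : ℤ).toNat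
    have hi' := abs_le.1 hi
    have e : (((q * j : ℕ) : ℤ) + M + i).toNat = q * j + ((M : ℤ) + i).toNat := by
      omega
    rw [e]
    exact hw _ (by omega)
  have hFρ : ∀ j w, F j (ρ w) = h ((shiftZ A)^[r + j * q] w) * v (r + j * q) := by
    intro j w
    change h (ex j (ρ w)) * v (r + j * q) = _
    rw [hloc (ex j (ρ w)) ((shiftZ A)^[r + j * q] w) fun i hi => ?_]
    rw [shiftZ_iter_apply]
    change w (((((q * j : ℕ) : ℤ) + M + i).toNat : ℤ) + r - M) = _
    congr 1
    have hi' := abs_le.1 hi
    have e : ((((q * j : ℕ) : ℤ) + M + i).toNat : ℤ) = ((q * j : ℕ) : ℤ) + M + i := by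
      rw [Int.toNat_of_nonneg]
      omega
    rw [e]
    push_cast
    ring
  have hFint : ∀ j, ∫ w, F j w ∂(Q m) = 0 := by
    intro j
    rw [← hρ, integral_map hρmeas.aemeasurable (hFmeas j).aestronglyMeasurable]
    have e1 : (fun w => F j (ρ w)) = fun w => h ((shiftZ A)^[r + j * q] w) * v (r + j * q) :=
      funext (hFρ j)
    rw [e1, integral_mul_const]
    have e2 : ∫ w, h ((shiftZ A)^[r + j * q] w) ∂(Be m) = 0 := by
      have e3 : (shiftZ A)^[r + j * q] = fun (w : ℤ → A) (i : ℤ) => w (i + (r + j * q : ℕ)) := by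
        funext w i
        exact shiftZ_iter_apply _ w i
      have hinj : Function.Injective fun i : ℤ => i + ((r + j * q : ℕ) : ℤ) :=
        fun i i' hii => add_right_cancel hii
      have e4 : (Be m).map (fun (w : ℤ → A) (i : ℤ) => w (i + (r + j * q : ℕ))) = Be m :=
        Pool.Agent.Helper12.MB.t_BLK A m ℤ ℤ _ hinj
      have hm : Measurable (fun (w : ℤ → A) (i : ℤ) => w (i + (r + j * q : ℕ))) := by
        rw [measurable_pi_iff]
        intro i
        exact measurable_pi_apply _
      rw [e3, ← integral_map (f := h) hm.aemeasurable hmeas.aestronglyMeasurable, e4, hint]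
    rw [e2, zero_mul]
  have hH := Pool.Agent.Helper89.MB.t_HOE m J q F b t hJ hb ht hFmeas
    (fun j _ => hFloc j) (fun j _ => hFle j) (fun j _ => hFint j)
  have hset : MeasurableSet {W : Wd | t ≤ |∑ j ∈ range J, F j W|} :=
    measurableSet_le measurable_const
      (Finset.measurable_sum _ fun j _ => hFmeas j).abs
  rw [← hρ, map_measureReal_apply hρmeas hset] at hH
  have e5 : ρ ⁻¹' {W : Wd | t ≤ |∑ j ∈ range J, F j W|} =
      {w | t ≤ |∑ j ∈ range J, h ((shiftZ A)^[r + j * q] w) * v (r + j * q)|} := by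
    ext w
    change t ≤ |∑ j ∈ range J, F j (ρ w)| ↔ _
    rw [Finset.sum_congr rfl fun j _ => hFρ j w]
    rfl
  rw [e5] at hH
  exact hH

/-- **LDV** -/
theorem t_LDV : S_LDV := by
  intro m _ M h b c hmeas hb hc hle hloc hint
  set q : ℕ := 2 * M + 1 with hq
  have hq0 : 0 < q := by omega
  have hqr : (0 : ℝ) < q := by exact_mod_cast hq0
  have hq1 : (1 : ℝ) ≤ q := by exact_mod_cast hq0
  set a : ℝ := c ^ 2 / (4 * q * b ^ 2) with ha
  have ha0 : 0 < a := by positivity
  refine ⟨2 * q * Real.exp (a * q), a, ha0, fun L v hv => ?_⟩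
  rcases lt_or_ge L q with hL | hL
  · refine measureReal_le_one.trans ?_
    rw [mul_assoc, ← Real.exp_add]
    have h1 : (0 : ℝ) ≤ a * q + -(a * L) := by
      have : (L : ℝ) ≤ q := by exact_mod_cast hL.le
      nlinarith
    have h2 := Real.one_le_exp h1
    nlinarith
  · have hL0 : 0 < L := hq0.trans_le hL
    have hLr : (0 : ℝ) < L := by exact_mod_cast hL0
    set J : ℕ := L / q + 1 with hJ
    have hJ0 : 0 < J := Nat.succ_pos _
    let v' : ℕ → ℝ := fun n => if n < L then v n else 0
    have hv' : ∀ n, |v' n| ≤ 1 := by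
      intro n
      change |if n < L then v n else 0| ≤ 1
      split_ifs
      · exact hv n
      · simp
    have hLJ : L ≤ J * q := by
      have h1 := Nat.div_add_mod L q
      have h2 := Nat.mod_lt L hq0
      have h3 : J * q = q * (L / q) + q := by rw [hJ]; ring
      omega
    have hsum : ∀ w : ℤ → A, ∑ n ∈ range L, h ((shiftZ A)^[n] w) * v n =
        ∑ r ∈ range q, ∑ j ∈ range J, h ((shiftZ A)^[r + j * q] w) * v' (r + j * q) := by
      intro w
      rw [← sum_range_classes (fun n => h ((shiftZ A)^[n] w) * v' n) q J,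
        ← Finset.sum_subset (Finset.range_subset_range.2 hLJ)]
      · refine Finset.sum_congr rfl fun n hn => ?_
        have : v' n = v n := if_pos (Finset.mem_range.1 hn)
        rw [this]
      · intro n _ hn
        have : v' n = 0 := if_neg fun h' => hn (Finset.mem_range.2 h')
        rw [this, mul_zero]
    have hsub : {w : ℤ → A | c * L ≤ |∑ n ∈ range L, h ((shiftZ A)^[n] w) * v n|} ⊆
        ⋃ r ∈ range q, {w : ℤ → A | c * L / q ≤ |∑ j ∈ range J,
          h ((shiftZ A)^[r + j * q] w) * v' (r + j * q)|} := by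
      intro w hw
      by_contra hcon
      simp only [Set.mem_iUnion, Set.mem_ofPred_eq, not_exists, not_le] at hcon
      have h1 : |∑ n ∈ range L, h ((shiftZ A)^[n] w) * v n| < c * L := by
        rw [hsum w]
        refine (Finset.abs_sum_le_sum_abs _ _).trans_lt ?_
        calc ∑ r ∈ range q, |∑ j ∈ range J, h ((shiftZ A)^[r + j * q] w) * v' (r + j * q)|
            < ∑ _r ∈ range q, c * L / q :=
              Finset.sum_lt_sum_of_nonempty ⟨0, Finset.mem_range.2 hq0⟩ fun r hr => hcon r hr
          _ = c * L := by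
              rw [Finset.sum_const, Finset.card_range, nsmul_eq_mul]
              field_simp
      exact absurd hw (not_le.2 h1)
    refine (measureReal_mono hsub (measure_ne_top _ _)).trans
      ((measureReal_biUnion_finset_le _ _).trans ?_)
    have hJr : (J : ℝ) ≤ 2 * L / q := by
      have h1 : ((L / q : ℕ) : ℝ) ≤ (L : ℝ) / q := Nat.cast_div_le
      have h2 : (1 : ℝ) ≤ (L : ℝ) / q := by
        rw [one_le_div hqr]
        exact_mod_cast hL
      rw [hJ]
      push_cast
      have h3 : 2 * (L : ℝ) / q = L / q + L / q := by ring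
      rw [h3]
      linarith
    have hJr0 : (0 : ℝ) < J := by exact_mod_cast hJ0
    have hbd : ∀ r ∈ range q, (Be m).real {w : ℤ → A | c * L / q ≤ |∑ j ∈ range J,
        h ((shiftZ A)^[r + j * q] w) * v' (r + j * q)|} ≤ 2 * Real.exp (-(a * L)) := by
      intro r _
      refine (class_bound m M h b (c * L / q) hmeas hb (by positivity) hle hloc hint J r hJ0 v'
        hv').trans ?_
      refine mul_le_mul_of_nonneg_left (Real.exp_le_exp.2 ?_) (by norm_num)
      rw [neg_div, neg_le_neg_iff, le_div_iff₀ (by positivity)]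
      have h1 : a * L * (2 * J * b ^ 2) ≤ a * L * (2 * (2 * L / q) * b ^ 2) := by
        have : (2 : ℝ) * J * b ^ 2 ≤ 2 * (2 * L / q) * b ^ 2 :=
          mul_le_mul_of_nonneg_right (by linarith) (by positivity)
        exact mul_le_mul_of_nonneg_left this (by positivity)
      refine h1.trans (le_of_eq ?_)
      rw [ha]
      field_simp
      ring
    calc ∑ r ∈ range q, (Be m).real {w : ℤ → A | c * L / q ≤ |∑ j ∈ range J,
          h ((shiftZ A)^[r + j * q] w) * v' (r + j * q)|}
        ≤ ∑ _r ∈ range q, 2 * Real.exp (-(a * L)) := Finset.sum_le_sum hbd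
      _ = q * (2 * Real.exp (-(a * L))) := by
          rw [Finset.sum_const, Finset.card_range, nsmul_eq_mul]
      _ ≤ 2 * q * Real.exp (a * q) * Real.exp (-(a * L)) := by
          have h1 : (1 : ℝ) ≤ Real.exp (a * q) := Real.one_le_exp (by positivity)
          have h2 : (0 : ℝ) ≤ q * (2 * Real.exp (-(a * L))) := by positivity
          calc q * (2 * Real.exp (-(a * L))) ≤ q * (2 * Real.exp (-(a * L))) * Real.exp (a * q) :=
                le_mul_of_one_le_right h2 h1
            _ = 2 * q * Real.exp (a * q) * Real.exp (-(a * L)) := by ring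

end Pool.Agent.Helper39.MB
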