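import Pool.Agent.Helper59.MB.Goals2
import Pool.Agent.Helper39.MB.LCS

/-!
# Project MB (MP_49a1ce_an): REC (packet 13255)

The recursion which defines the block lengths and the word of the second model.
-/

set_option autoImplicit false

open MeasureTheory Filter Topology Finset

namespace Pool.Agent.Helper39.MB

open Pool.Agent.Helper59.MB

/-- the states of level `k`: block lengths and a word -/
abbrev RSt (m : Measure A) [IsProbabilityMeasure m] (k : ℕ) : Type :=
  {x : (ℕ → ℕ) × Wd // Par x.1 V1 m k}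

/-- the relation of consecutive states -/
def RRel (m : Measure A) [IsProbabilityMeasure m] (d : ℕ) (u : ℕ → ℤ) (c p : ℝ) (k : ℕ)
    (x : RSt m k) (x' : RSt m (k + 1)) : Prop :=
  (∀ i ≤ k, x'.1.1 i = x.1.1 i) ∧
  (∀ i < P x.1.1 k, Phi x'.1.1 V1 m (k + 1) x'.1.2 i = Phi x.1.1 V1 m k x.1.2 i) ∧
  ∃ N ≥ k, N < P x'.1.1 (k + 1) ∧ c * N ≤
    ∑ n ∈ Icc 1 N, ((if Phi x'.1.1 V1 m (k + 1) x'.1.2 n d = true then (1 : ℝ) else 0) - p) * u n

lemma Phi_succ_of_good (s : ℕ → ℕ) (V : ℕ → Set (ℕ → ℝ)) (m : Measure A) [IsProbabilityMeasure m]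
    (k : ℕ) (w : Wd) (h : Good s V m k (cat s k (Phi s V m k) w)) :
    Phi s V m (k + 1) w = cat s k (Phi s V m k) w := by
  change nxt s V m k (Phi s V m k) w = cat s k (Phi s V m k) w
  unfold nxt
  exact if_pos h

lemma cat_of_lt (s : ℕ → ℕ) (k : ℕ) (Φ : Wd → Wd) (w : Wd) (i : ℕ) (hi : i < P s k) :
    cat s k Φ w i = Φ w i := by
  unfold cat
  rw [Nat.div_eq_of_lt hi, Nat.mod_eq_of_lt hi, mul_zero]
  have : from' 0 w = w := by
    funext j
    unfold from'
    rw [zero_add]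
  rw [this]

lemma V1_fin (k : ℕ) : (V1 k).Finite := by unfold V1; exact Set.finite_singleton _

lemma V1_one (k : ℕ) : (fun _ => (1 : ℝ)) ∈ V1 k := by unfold V1; exact Set.mem_singleton _

lemma V1_le (k : ℕ) : ∀ v ∈ V1 k, ∀ i, |v i| ≤ 1 := by
  intro v hv i
  unfold V1 at hv
  rw [Set.mem_singleton_iff.1 hv]
  simp

lemma RRel_step (hLOP : S_LOP) (hSTG : S_STG) (hEXT : S_EXT) (m : Measure A)
    [IsProbabilityMeasure m] (d : ℕ) (u : ℕ → ℤ) (δ p : ℝ)
    (hu : ∀ n, |u n| ≤ 1) (hδ : 0 < δ) (hNP : NP u δ) (hp : p = m.real {a | a d = true})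
    (hd : (1 / 2) ^ (d + 1) ≤ δ / 2 * (p * (1 - p)) / 4) (k : ℕ) (x : RSt m k) :
    ∃ x' : RSt m (k + 1), RRel m d u (δ / 2 * (p * (1 - p)) / 4) p k x x' := by
  obtain ⟨⟨s, wk⟩, hs⟩ := x
  obtain ⟨N, hN, w, hw, hsum⟩ := hSTG s m k d u δ p hs hu hδ hNP hp hd wk (max k (P s k))
  obtain ⟨s', hs', -, hPar, hNP', w', hw', hgood⟩ := hEXT s m k hs w N 0
  have hPhi := Phi_succ_of_good s' V1 m k w' hgood
  have hkN : k ≤ N := (le_max_left _ _).trans hN
  have hPN : P s k ≤ N := (le_max_right _ _).trans hN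
  refine ⟨⟨(s', w'), hPar⟩, hs', fun i hi => ?_, N, hkN, hNP', ?_⟩
  · change Phi s' V1 m (k + 1) w' i = Phi s V1 m k wk i
    rw [hPhi, hw' i (hi.le.trans hPN), cat_of_lt s k _ w i hi]
    exact (hLOP s V1 m hs.mono).2.1 k w wk hw i hi
  · refine hsum.trans (le_of_eq (Finset.sum_congr rfl fun n hn => ?_))
    change _ = ((if Phi s' V1 m (k + 1) w' n d = true then (1 : ℝ) else 0) - p) * u n
    rw [hPhi, hw' n (Finset.mem_Icc.1 hn).2]

/-- **REC** -/
theorem t_REC (hLOP : S_LOP) (hINV : S_INV) (hSTG : S_STG) (hEXT : S_EXT) : S_REC := by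
  intro m _ d u δ p hu hδ hNP hp hd
  choose next hnext using RRel_step hLOP hSTG hEXT m d u δ p hu hδ hNP hp hd
  have h0 : Par (id : ℕ → ℕ) V1 m 0 :=
    ⟨strictMono_id, V1_fin, V1_one, V1_le, fun k hk => absurd hk (Nat.not_lt_zero k)⟩
  let st : (k : ℕ) → RSt m k := fun k => Nat.rec ⟨(id, fun _ _ => false), h0⟩ next k
  have hst : ∀ k, RRel m d u (δ / 2 * (p * (1 - p)) / 4) p k (st k) (st (k + 1)) :=
    fun k => hnext k (st k)
  clear_value st
  -- the block lengths
  let sk : ℕ → ℕ → ℕ := fun k => (st k).1.1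
  let Y : ℕ → Wd := fun k => Phi (sk k) V1 m k (st k).1.2
  let s : ℕ → ℕ := fun i => sk i i
  have hsk : ∀ i k, i ≤ k → sk k i = s i := by
    intro i k hik
    induction k, hik using Nat.le_induction with
    | base => rfl
    | succ k hk ih => rw [← ih]; exact (hst k).1 i hk
  have hmono : StrictMono s := strictMono_nat_of_lt_succ fun i => by
    have h1 : sk (i + 1) i < sk (i + 1) (i + 1) := (st (i + 1)).2.mono (Nat.lt_succ_self i)
    rw [hsk i (i + 1) (Nat.le_succ i)] at h1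
    exact h1
  have hP : ∀ k, P (sk k) k = P s k := fun k => rfl
  have hPar : ∀ K, Par s V1 m K := by
    intro K
    refine ⟨hmono, V1_fin, V1_one, V1_le, fun k _ => ?_⟩
    have h1 := (st (k + 1)).2.adm k (Nat.lt_succ_self k)
    have h2 := (t_LCS s (sk (k + 1)) V1 m k
      (fun i hi => (hsk i (k + 1) (hi.trans (Nat.le_succ k))).symm)).2.2.2
      (hsk (k + 1) (k + 1) le_rfl).symm
    exact h2.2.2.2 h1
  have hPmono : ∀ i j, i ≤ j → P s i ≤ P s j := fun i j hij =>
    Nat.pow_le_pow_right (by norm_num) (hmono.monotone hij)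
  have hPbig : ∀ k, k < P s k := fun k =>
    (Nat.lt_two_pow_self (n := k)).trans_le
      (Nat.pow_le_pow_right (by norm_num) (hmono.le_apply))
  -- the words
  have hYstep : ∀ k, ∀ i < P s k, Y (k + 1) i = Y k i := fun k i hi => (hst k).2.1 i hi
  have hY : ∀ j k, j ≤ k → ∀ i < P s j, Y k i = Y j i := by
    intro j k hjk
    induction k, hjk using Nat.le_induction with
    | base => intro i _; rfl
    | succ k hk ih =>
      intro i hi
      rw [hYstep k i (hi.trans_le (hPmono j k hk)), ih i hi]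
  let y : Wd := fun i => Y (i + 1) i
  have hy : ∀ k, ∀ i < P s k, y i = Y k i := by
    intro k i hi
    change Y (i + 1) i = Y k i
    have hi1 : i < P s (i + 1) := (Nat.lt_succ_self i).trans (hPbig (i + 1))
    rw [← hY (i + 1) (max (i + 1) k) (le_max_left _ _) i hi1,
      ← hY k (max (i + 1) k) (le_max_right _ _) i hi]
  refine ⟨s, hPar, y, fun k q => ?_, fun N₀ => ?_⟩
  · -- good blocks
    set K := P s (k + 1) * (q + 1) + k + 1 with hK
    have hkK : k < K := by omega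
    have hle : P s (k + 1) * (q + 1) ≤ P s K := by
      have := hPbig K
      omega
    have hLK : Phi s V1 m K (st K).1.2 = Y K :=
      congrFun (Phi_congr V1 m K fun i hi => (hsk i K hi).symm) _
    have h1 := hINV s V1 m K (hPar K) (st K).1.2 k q hkK hle
    rw [hLK] at h1
    refine ((hLOP s V1 m hmono).1 k _ _ _ _ fun a ha j _ => ?_).2 h1
    unfold from'
    rw [hy K]
    have : P s (k + 1) * (q + 1) = P s (k + 1) * q + P s (k + 1) := by ring
    omega
  · obtain ⟨N, hN, hN', hsum⟩ := (hst N₀).2.2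
    refine ⟨N, hN, hsum.trans (le_of_eq (Finset.sum_congr rfl fun n hn => ?_))⟩
    have hn' : n < P s (N₀ + 1) := (Finset.mem_Icc.1 hn).2.trans_lt hN'
    rw [hy (N₀ + 1) n hn']

end Pool.Agent.Helper39.MB
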