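import Pool.Agent.Helper70.MB.Goals

/-!
Packet MB-SEQL of helper70: large scales, pure real analysis.
-/

namespace Pool.Agent.Helper39.MBSeql

open Pool.Agent.Helper70.MB

lemma growth (n : ℕ) (C M : ℝ) (hC : 0 < C) (hM1 : 1 ≤ M) (hM : 2 * (C * 4 ^ (n + 1)) ≤ M ^ 2)
    (z : ℝ → ℝ)
    (h1 : ∀ ρ : ℝ, 1 ≤ ρ → z (ρ / 4) ≤ C * ρ ^ n + C / ρ ^ 2 * z ρ)
    (B : ℝ) (hB0 : 0 ≤ B) (hB : ∀ ρ : ℝ, 1 ≤ ρ → z ρ ≤ B * ρ ^ n) (k : ℕ) :
    ∀ i : ℕ, z (4 ^ i * M) ≤ (2 * C + B / 2 ^ k) * (4 ^ (i + 1) * M) ^ n := by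
  have hMpos : 0 < M := lt_of_lt_of_le one_pos hM1
  have hρ : ∀ i : ℕ, 1 ≤ 4 ^ i * M := fun i => by
    have : (1 : ℝ) ≤ 4 ^ i := one_le_pow₀ (by norm_num)
    nlinarith
  induction k with
  | zero =>
    intro i
    have h := hB (4 ^ i * M) (hρ i)
    have h2 : (4 ^ i * M) ^ n ≤ (4 ^ (i + 1) * M) ^ n := by
      have h0 := hρ i
      apply pow_le_pow_left₀ (by linarith)
      rw [pow_succ]
      nlinarith
    have h3 : 0 ≤ (4 ^ (i + 1) * M) ^ n := by positivity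
    have h4 : B * (4 ^ i * M) ^ n ≤ B * (4 ^ (i + 1) * M) ^ n :=
      mul_le_mul_of_nonneg_left h2 hB0
    have h5 : 0 ≤ 2 * C * (4 ^ (i + 1) * M) ^ n := by positivity
    have h6 : (2 * C + B / 2 ^ 0) * (4 ^ (i + 1) * M) ^ n =
        2 * C * (4 ^ (i + 1) * M) ^ n + B * (4 ^ (i + 1) * M) ^ n := by
      simp only [pow_zero, div_one]; ring
    rw [h6]
    linarith
  | succ k ih =>
    intro i
    have h := h1 (4 ^ (i + 1) * M) (hρ (i + 1))
    have e1 : 4 ^ (i + 1) * M / 4 = 4 ^ i * M := by rw [pow_succ]; ring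
    rw [e1] at h
    have h2 := ih (i + 1)
    have hP : 0 < (4 ^ (i + 1) * M) ^ n := by positivity
    have e2 : (4 ^ (i + 1 + 1) * M) ^ n = 4 ^ n * (4 ^ (i + 1) * M) ^ n := by
      rw [← mul_pow]; congr 1; ring
    rw [e2] at h2
    have hD : 0 ≤ 2 * C + B / 2 ^ k := by positivity
    have hq : C / (4 ^ (i + 1) * M) ^ 2 * 4 ^ n ≤ 1 / 2 := by
      rw [div_mul_eq_mul_div, div_le_div_iff₀ (by positivity) (by norm_num)]
      have hA : M ^ 2 ≤ (4 ^ (i + 1) * M) ^ 2 := by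
        apply pow_le_pow_left₀ hMpos.le
        have : (1 : ℝ) ≤ 4 ^ (i + 1) := one_le_pow₀ (by norm_num)
        nlinarith
      have hB' : C * 4 ^ n ≤ C * 4 ^ (n + 1) := by
        apply mul_le_mul_of_nonneg_left _ hC.le
        exact pow_le_pow_right₀ (by norm_num) (Nat.le_succ n)
      linarith
    have h3 : C / (4 ^ (i + 1) * M) ^ 2 * z (4 ^ (i + 1) * M) ≤
        C / (4 ^ (i + 1) * M) ^ 2 *
          ((2 * C + B / 2 ^ k) * (4 ^ n * (4 ^ (i + 1) * M) ^ n)) :=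
      mul_le_mul_of_nonneg_left h2 (by positivity)
    have h4 : C / (4 ^ (i + 1) * M) ^ 2 *
          ((2 * C + B / 2 ^ k) * (4 ^ n * (4 ^ (i + 1) * M) ^ n)) =
        (C / (4 ^ (i + 1) * M) ^ 2 * 4 ^ n) *
          ((2 * C + B / 2 ^ k) * (4 ^ (i + 1) * M) ^ n) := by ring
    have h5 : (C / (4 ^ (i + 1) * M) ^ 2 * 4 ^ n) *
          ((2 * C + B / 2 ^ k) * (4 ^ (i + 1) * M) ^ n) ≤
        1 / 2 * ((2 * C + B / 2 ^ k) * (4 ^ (i + 1) * M) ^ n) :=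
      mul_le_mul_of_nonneg_right hq (by positivity)
    have h6 : (2 * C + B / 2 ^ (k + 1)) * (4 ^ (i + 1) * M) ^ n =
        C * (4 ^ (i + 1) * M) ^ n + 1 / 2 * ((2 * C + B / 2 ^ k) * (4 ^ (i + 1) * M) ^ n) := by
      rw [pow_succ (2 : ℝ) k]
      have : (2 : ℝ) ^ k ≠ 0 := by positivity
      field_simp
      ring
    rw [h6]
    linarith

lemma growth' (n : ℕ) (C M : ℝ) (hC : 0 < C) (hM1 : 1 ≤ M) (hM : 2 * (C * 4 ^ (n + 1)) ≤ M ^ 2)
    (z : ℝ → ℝ)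
    (h1 : ∀ ρ : ℝ, 1 ≤ ρ → z (ρ / 4) ≤ C * ρ ^ n + C / ρ ^ 2 * z ρ)
    (h2 : ∃ B : ℝ, ∀ ρ : ℝ, 1 ≤ ρ → z ρ ≤ B * ρ ^ n) (i : ℕ) :
    z (4 ^ i * M) ≤ 3 * C * (4 ^ (i + 1) * M) ^ n := by
  obtain ⟨B, hB⟩ := h2
  have hB' : ∀ ρ : ℝ, 1 ≤ ρ → z ρ ≤ |B| * ρ ^ n := fun ρ hρ =>
    (hB ρ hρ).trans (mul_le_mul_of_nonneg_right (le_abs_self B)
      (pow_nonneg (by linarith) n))
  obtain ⟨k, hk⟩ := pow_unbounded_of_one_lt (|B| / C) (one_lt_two : (1 : ℝ) < 2)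
  have h := growth n C M hC hM1 hM z h1 |B| (abs_nonneg B) hB' k i
  have hk' : |B| / 2 ^ k ≤ C := by
    rw [div_le_iff₀ (by positivity)]
    rw [div_lt_iff₀ hC] at hk
    linarith
  have hP : 0 ≤ (4 ^ (i + 1) * M) ^ n := by
    have : 0 < M := lt_of_lt_of_le one_pos hM1
    positivity
  refine h.trans (mul_le_mul_of_nonneg_right ?_ hP)
  linarith

/-- Packet MB-SEQL. -/
theorem seql : SEQL := by
  intro n C M₁ hC hM₁
  have hK : 0 < C * 4 ^ (n + 1) := by positivity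
  refine ⟨M₁ + 2 * (C * 4 ^ (n + 1)), by linarith, ?_⟩
  set M : ℝ := M₁ + 2 * (C * 4 ^ (n + 1)) with hMdef
  have hM1 : 1 ≤ M := by linarith
  have hMpos : 0 < M := by linarith
  have hMM₁ : M₁ ≤ M := by linarith
  have hM : 2 * (C * 4 ^ (n + 1)) ≤ M ^ 2 := by nlinarith
  intro ε hε
  obtain ⟨J, hJ⟩ := pow_unbounded_of_one_lt (3 * C * (4 * M) ^ n / ε)
    (by norm_num : (1 : ℝ) < 8)
  refine ⟨4 ^ (J + 1) * M / 2, by positivity, ?_⟩
  intro z a hz ha h1 h2 h3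
  have hpow1 : ∀ i : ℕ, (1 : ℝ) ≤ 4 ^ i := fun i => one_le_pow₀ (by norm_num)
  -- the contraction
  have hq : ∀ i : ℕ, i ≤ J + 1 →
      z (4 ^ i * M / 4) + a (4 ^ i * M / 4) ≤ 1 / (8 * 4 ^ n) * z (4 ^ i * M) := by
    intro i hi
    have hge : M ≤ 4 ^ i * M := by
      have := hpow1 i
      nlinarith
    have h := h3 (4 ^ i * M) (by linarith) (by
      apply div_le_div_of_nonneg_right _ (by norm_num)
      apply mul_le_mul_of_nonneg_right _ hMpos.le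
      exact pow_le_pow_right₀ (by norm_num) hi)
    refine h.trans (mul_le_mul_of_nonneg_right ?_ (hz _))
    rw [div_le_div_iff₀ (by positivity) (by positivity)]
    have hA : M ^ 2 ≤ (4 ^ i * M) ^ 2 := pow_le_pow_left₀ hMpos.le hge 2
    have hB' : C * (8 * 4 ^ n) = 2 * (C * 4 ^ (n + 1)) := by rw [pow_succ]; ring
    rw [hB']
    linarith
  have hit : ∀ j : ℕ, j ≤ J →
      z M + a M ≤ (1 / (8 * 4 ^ n)) ^ (j + 1) * z (4 ^ (j + 1) * M) := by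
    intro j
    induction j with
    | zero =>
      intro _
      have h := hq 1 (by omega)
      have e : (4 : ℝ) ^ 1 * M / 4 = M := by ring
      rw [e] at h
      simpa using h
    | succ j ih =>
      intro hj
      have h := ih (by omega)
      have h' := hq (j + 1 + 1) (by omega)
      have e : (4 : ℝ) ^ (j + 1 + 1) * M / 4 = 4 ^ (j + 1) * M := by rw [pow_succ]; ring
      rw [e] at h'
      have h4 : z (4 ^ (j + 1) * M) ≤ 1 / (8 * 4 ^ n) * z (4 ^ (j + 1 + 1) * M) := by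
        have := ha (4 ^ (j + 1) * M)
        linarith
      refine h.trans ?_
      rw [pow_succ (1 / (8 * (4 : ℝ) ^ n)) (j + 1), mul_assoc]
      exact mul_le_mul_of_nonneg_left h4 (by positivity)
  have hfin : z M + a M ≤ ε := by
    refine (hit J le_rfl).trans ?_
    have hg := growth' n C M hC hM1 hM z h1 h2 (J + 1)
    have hqp : 0 ≤ (1 / (8 * (4 : ℝ) ^ n)) ^ (J + 1) := by positivity
    refine (mul_le_mul_of_nonneg_left hg hqp).trans ?_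
    have e : (1 / (8 * (4 : ℝ) ^ n)) ^ (J + 1) * (3 * C * (4 ^ (J + 1 + 1) * M) ^ n) =
        3 * C * (4 * M) ^ n / 8 ^ (J + 1) := by
      have e1 : ((4 : ℝ) ^ (J + 1 + 1) * M) ^ n = (4 ^ n) ^ (J + 1) * (4 * M) ^ n := by
        rw [← pow_mul, mul_comm n (J + 1), pow_mul, ← mul_pow]
        congr 1
        ring
      rw [e1, div_pow, one_pow, mul_pow]
      have : ((4 : ℝ) ^ n) ^ (J + 1) ≠ 0 := by positivity
      field_simp
    rw [e, div_le_iff₀ (by positivity)]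
    rw [div_lt_iff₀ hε] at hJ
    have h8 : (8 : ℝ) ^ J ≤ 8 ^ (J + 1) := pow_le_pow_right₀ (by norm_num) (Nat.le_succ J)
    nlinarith
  refine ⟨hfin, ?_⟩
  have h := hq 0 (Nat.zero_le _)
  simp only [pow_zero, one_mul] at h
  refine h.trans ?_
  have h7 : 1 / (8 * (4 : ℝ) ^ n) ≤ 1 := by
    rw [div_le_one (by positivity)]
    have := hpow1 n
    linarith
  have h8 : 1 / (8 * (4 : ℝ) ^ n) * z M ≤ 1 * z M := mul_le_mul_of_nonneg_right h7 (hz M)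
  have := ha M
  linarith

end Pool.Agent.Helper39.MBSeql
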