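import Pool.Agent.Helper59.MB.Goals2

/-!
# Project MB (MP_49a1ce_an): TWO (packet 13256)

From a one-sided sequence to a point of `X`.
-/

set_option autoImplicit false

open MeasureTheory Filter Topology Finset

namespace Pool.Agent.Helper39.MB

open Pool.Agent.Helper59.MB

/-- **TWO** -/
theorem t_TWO (hLOP : S_LOP) (hPHS : S_PHS) : S_TWO := by
  intro s V m _ hs y hy
  classical
  obtain ⟨-, hph, -, -, -, hph0⟩ := hPHS
  let Y : ℕ → ℤ → A := fun K n => if 0 ≤ n then y n.toNat else y (n + P s K).toNat
  have hYpos : ∀ K n, 0 ≤ n → Y K n = y n.toNat := fun K n hn => if_pos hn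
  have hYneg : ∀ K n, n < 0 → Y K n = y (n + P s K).toNat := fun K n hn => if_neg (not_le.2 hn)
  clear_value Y
  let 𝒰 : Ultrafilter ℕ := Filter.hyperfilter ℕ
  let z : ℤ → A := fun n j => decide (∀ᶠ K in (𝒰 : Filter ℕ), Y K n j = true)
  have hz : ∀ n j, ∀ᶠ K in (𝒰 : Filter ℕ), Y K n j = z n j := by
    intro n j
    by_cases h : ∀ᶠ K in (𝒰 : Filter ℕ), Y K n j = true
    · have h1 : z n j = true := decide_eq_true h
      rw [h1]
      exact h
    · have h1 : z n j = false := decide_eq_false h
      rw [h1]
      have h2 := Ultrafilter.eventually_not.2 h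
      filter_upwards [h2] with K hK
      exact Bool.eq_false_iff.2 hK
  refine ⟨z, ?_, ?_⟩
  · intro k n hn
    have hdiv : (P s (k + 1) : ℤ) ∣ n := by
      have h1 := hph (s (k + 1)) 0 n
      have h2 : ph (s (k + 1)) ((0 : ℤ_[2]) + (n : ℤ_[2])) = 0 := hn
      rw [h2, hph0, Nat.cast_zero, zero_add] at h1
      have h3 : (P s (k + 1) : ℤ) = 2 ^ s (k + 1) := by
        unfold P
        push_cast
        rfl
      rw [h3]
      exact Int.dvd_of_emod_eq_zero h1.symm
    have hPpos : 0 < P s (k + 1) := by unfold P; positivity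
    have h1 : ∀ᶠ K in (𝒰 : Filter ℕ), ∀ a ∈ Finset.range (P s (k + 1)), ∀ j ∈ Finset.range k,
        Y K (n + a) j = z (n + a) j := by
      rw [Filter.eventually_all_finset]
      intro a _
      rw [Filter.eventually_all_finset]
      intro j _
      exact hz _ _
    have h2 : ∀ᶠ K in (𝒰 : Filter ℕ), max (k + 1) n.natAbs ≤ K :=
      Nat.hyperfilter_le_atTop (Filter.eventually_ge_atTop _)
    obtain ⟨K, hK, hKm⟩ := (h1.and h2).exists
    have hK1 : k + 1 ≤ K := (le_max_left _ _).trans hKm
    have hK2 : n.natAbs ≤ K := (le_max_right _ _).trans hKm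
    have hPK : K < P s K := (Nat.lt_two_pow_self (n := K)).trans_le
      (Nat.pow_le_pow_right (by norm_num) hs.le_apply)
    have hdK : P s (k + 1) ∣ P s K := by
      unfold P
      exact pow_dvd_pow 2 (hs.monotone hK1)
    -- the block of `y`
    obtain ⟨q, hq⟩ : ∃ q : ℕ, ∀ a < P s (k + 1), Y K (n + a) = y (P s (k + 1) * q + a) := by
      rcases le_or_gt 0 n with h0 | h0
      · obtain ⟨c, hc⟩ := hdiv
        have hc0 : 0 ≤ c := by
          by_contra hneg
          have : (P s (k + 1) : ℤ) * c < 0 := by
            have h4 : (0 : ℤ) < P s (k + 1) := by exact_mod_cast hPpos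
            nlinarith
          omega
        obtain ⟨q, rfl⟩ := Int.eq_ofNat_of_zero_le hc0
        refine ⟨q, fun a _ => ?_⟩
        rw [hYpos K (n + a) (by omega), hc]
        congr 1
      · obtain ⟨c, hc⟩ := hdiv
        obtain ⟨r, hr⟩ := hdK
        have h4 : (0 : ℤ) < P s (k + 1) := by exact_mod_cast hPpos
        have hc0 : c < 0 := by
          by_contra hneg
          have h5 : 0 ≤ c := not_lt.1 hneg
          have : 0 ≤ (P s (k + 1) : ℤ) * c := by positivity
          omega
        have hnK : 0 ≤ n + P s K := by omega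
        have hrc : 0 ≤ (r : ℤ) + c := by
          by_contra hneg
          have h5 : (r : ℤ) + c < 0 := not_le.1 hneg
          have h6 : n + P s K = P s (k + 1) * ((r : ℤ) + c) := by
            rw [hc, hr]
            push_cast
            ring
          have : (P s (k + 1) : ℤ) * ((r : ℤ) + c) < 0 := by nlinarith
          omega
        obtain ⟨q, hq⟩ := Int.eq_ofNat_of_zero_le hrc
        refine ⟨q, fun a ha => ?_⟩
        have hna : n + a < 0 := by
          have : (P s (k + 1) : ℤ) * c ≤ P s (k + 1) * (-1) :=
            mul_le_mul_of_nonneg_left (by omega) h4.le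
          have ha' : (a : ℤ) < P s (k + 1) := by exact_mod_cast ha
          omega
        rw [hYneg K (n + a) hna]
        congr 1
        have h7 : n + a + P s K = ((P s (k + 1) * q + a : ℕ) : ℤ) := by
          have h6 : n + P s K = P s (k + 1) * ((r : ℤ) + c) := by
            rw [hc, hr]
            push_cast
            ring
          rw [hq] at h6
          push_cast
          have : n + a + P s K = n + P s K + a := by ring
          rw [this, h6]
        rw [h7, Int.toNat_natCast]
    refine ((hLOP s V m hs).1 k _ _ _ _ fun a ha j hj => ?_).2 (hy k q)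
    change z (n + a) j = y (P s (k + 1) * q + a) j
    rw [← hK a (Finset.mem_range.2 ha) j (Finset.mem_range.2 hj), hq a ha]
  · intro n
    funext j
    obtain ⟨K, hK⟩ := (hz n j).exists
    rw [← hK, hYpos K n (Int.natCast_nonneg n), Int.toNat_natCast]

end Pool.Agent.Helper39.MB
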